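import Mathlib
import Pool.Agent.Helper419.TwoGraphC

/-!
The orbit algebra `A^G` over `ℂ` of the group `G` of switching automorphisms of the random graph is
a polynomial ring.
-/

set_option autoImplicit false

namespace Pool.Agent.Results.MP_f0391a_al.SwitchingOrbitAlgebraPolynomial

/-- The random graph, in its standard model on `ℕ`: `i` and `j` are adjacent if `i ≠ j` and the
`i`-th binary digit of `j` is `1` or the `j`-th binary digit of `i` is `1`. -/
def rado : SimpleGraph ℕ := SimpleGraph.fromRel (fun i j : ℕ => Nat.testBit j i = true)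

/-- `σ` is a switching automorphism of the random graph `R`: the image of `R` under `σ` is obtained
from `R` by switching with respect to some set (adjacency is reversed exactly for the pairs with
one vertex in the set); equivalently `i ↦ σ i` reverses adjacency exactly on the pairs `i, j` with
one element in some set `S`. -/
def IsSwitchingAut (σ : Equiv.Perm ℕ) : Prop :=
  ∃ S : Set ℕ, ∀ i j : ℕ, i ≠ j → (rado.Adj (σ i) (σ j) ↔ (rado.Adj i j ↔ (i ∈ S ↔ j ∈ S)))

/-- The product of the algebra `A`: `(f g)(K) = ∑ f(L) g(K \ L)`, `L ⊆ K`. -/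
noncomputable def conv (f g : Finset ℕ → ℂ) (K : Finset ℕ) : ℂ :=
  ∑ L ∈ K.powerset, f L * g (K \ L)

/-- The orbit algebra `A^G`: the functions on finite subsets of `ℕ` which vanish on all sets with at
least `N` elements for some `N` (these are the elements of `A = ⊕ Vₙ`) and are invariant under all
switching automorphisms of the random graph. -/
def orbitAlgebra : Set (Finset ℕ → ℂ) :=
  {f | (∃ N : ℕ, ∀ K : Finset ℕ, N ≤ K.card → f K = 0) ∧
    ∀ σ : Equiv.Perm ℕ, IsSwitchingAut σ → ∀ K : Finset ℕ, f (K.map σ.toEmbedding) = f K}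

open Pool.Agent.Helper419.Rado Pool.Agent.Helper419.TwoGraphC

/-- the exponent vector of a finite set -/
noncomputable def ind (s : Finset ℕ) : ℕ →₀ ℕ := Finsupp.indicator s fun _ _ => 1

lemma ind_apply (s : Finset ℕ) (i : ℕ) : ind s i = if i ∈ s then 1 else 0 := by
  unfold ind
  by_cases h : i ∈ s
  · rw [Finsupp.indicator_of_mem h, if_pos h]
  · rw [Finsupp.indicator_of_notMem h, if_neg h]

lemma ind_sf (s : Finset ℕ) : Sf (ind s) := fun i => by
  rw [ind_apply]; split_ifs <;> omega

lemma ind_support (s : Finset ℕ) : (ind s).support = s := by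
  ext i
  rw [Finsupp.mem_support_iff, ind_apply]
  by_cases h : i ∈ s <;> simp [h]

lemma sf_eq_ind {s : ℕ →₀ ℕ} (hs : Sf s) : s = ind s.support := by
  ext i
  rw [ind_apply]
  have h1 := hs i
  by_cases h : i ∈ s.support
  · rw [if_pos h]
    have := Finsupp.mem_support_iff.1 h
    omega
  · rw [if_neg h]
    exact Finsupp.notMem_support_iff.1 h

lemma ind_sum (s : Finset ℕ) : (ind s).sum (fun _ e => e) = s.card := by
  rw [Finsupp.sum, ind_support]
  rw [Finset.sum_congr rfl (fun i hi => by rw [ind_apply, if_pos hi] : ∀ i ∈ s, ind s i = 1)]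
  simp

/-- coefficients at squarefree exponents -/
noncomputable def ev (f : MvPowerSeries ℕ ℂ) (s : Finset ℕ) : ℂ := MvPowerSeries.coeff (ind s) f

lemma ev_mul (f g : MvPowerSeries ℕ ℂ) : ev (f * g) = conv (ev f) (ev g) := by
  classical
  funext K
  unfold ev conv
  rw [MvPowerSeries.coeff_mul]
  symm
  refine Finset.sum_bij' (fun L _ => (ind L, ind (K \ L))) (fun p _ => p.1.support) ?_ ?_ ?_ ?_ ?_
  · intro L hL
    rw [Finset.mem_powerset] at hL
    rw [Finset.HasAntidiagonal.mem_antidiagonal]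
    ext i
    rw [Finsupp.add_apply, ind_apply, ind_apply, ind_apply]
    simp only [Finset.mem_sdiff]
    by_cases h1 : i ∈ L
    · have := hL h1
      simp [h1, this]
    · by_cases h2 : i ∈ K <;> simp [h1, h2]
  · rintro ⟨p, q⟩ hp
    rw [Finset.HasAntidiagonal.mem_antidiagonal] at hp
    rw [Finset.mem_powerset]
    intro i hi
    have h1 := congrArg (fun z : ℕ →₀ ℕ => z i) hp
    simp only [Finsupp.add_apply, ind_apply] at h1
    by_contra h
    rw [if_neg h] at h1
    have h2 : p i ≠ 0 := Finsupp.mem_support_iff.1 hi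
    omega
  · intro L _
    exact ind_support L
  · rintro ⟨p, q⟩ hp
    rw [Finset.HasAntidiagonal.mem_antidiagonal] at hp
    have h1 : ∀ i, p i + q i = if i ∈ K then 1 else 0 := fun i => by
      have h1 := congrArg (fun z : ℕ →₀ ℕ => z i) hp
      simpa only [Finsupp.add_apply, ind_apply] using h1
    have hp' : Sf p := fun i => by
      have := h1 i
      split_ifs at this <;> omega
    have h2 : p = ind p.support := sf_eq_ind hp'
    refine Prod.ext h2.symm ?_
    ext i
    show ind (K \ p.support) i = q i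
    rw [ind_apply]
    simp only [Finset.mem_sdiff, Finsupp.mem_support_iff]
    have h3 := h1 i
    by_cases hK : i ∈ K
    · rw [if_pos hK] at h3
      by_cases h4 : p i = 0
      · rw [if_pos ⟨hK, fun h => h h4⟩]
        omega
      · rw [if_neg (fun h => h.2 h4)]
        omega
    · rw [if_neg hK] at h3
      rw [if_neg (fun h => hK h.1)]
      omega
  · intro L _
    rfl

lemma ev_add (f g : MvPowerSeries ℕ ℂ) : ev (f + g) = ev f + ev g := by
  funext K; unfold ev; rw [map_add]; rfl

lemma ev_smul (c : ℂ) (g : MvPowerSeries ℕ ℂ) : ev (c • g) = c • ev g := by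
  funext K; unfold ev; rw [map_smul]; rfl

lemma ev_one : ev 1 = fun K => if K = ∅ then 1 else 0 := by
  classical
  funext K
  unfold ev
  rw [MvPowerSeries.coeff_one]
  congr 1
  apply propext
  constructor
  · intro h
    rw [← ind_support K, h, Finsupp.support_zero]
  · rintro rfl
    ext i
    rw [ind_apply]
    simp

lemma ev_eq_zero {f : MvPowerSeries ℕ ℂ} : ev f = 0 ↔ f ∈ KK := by
  rw [mem_KK]
  constructor
  · intro h s hs
    rw [sf_eq_ind hs]
    exact congrFun h s.support
  · intro h
    funext K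
    exact h _ (ind_sf K)

/-! ### closure properties of the orbit algebra -/

lemma conv_mem {f g : Finset ℕ → ℂ} (hf : f ∈ orbitAlgebra) (hg : g ∈ orbitAlgebra) :
    conv f g ∈ orbitAlgebra := by
  classical
  obtain ⟨⟨N, hN⟩, hf'⟩ := hf
  obtain ⟨⟨M, hM⟩, hg'⟩ := hg
  refine ⟨⟨N + M, fun K hK => ?_⟩, fun σ hσ K => ?_⟩
  · unfold conv
    refine Finset.sum_eq_zero fun L hL => ?_
    rw [Finset.mem_powerset] at hL
    by_cases h : N ≤ L.card
    · rw [hN L h, zero_mul]
    · rw [hM (K \ L), mul_zero]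
      rw [Finset.card_sdiff_of_subset hL]
      omega
  · unfold conv
    symm
    refine Finset.sum_bij' (fun L _ => L.map σ.toEmbedding) (fun L _ => L.map σ.symm.toEmbedding)
      ?_ ?_ ?_ ?_ ?_
    · intro L hL
      rw [Finset.mem_powerset] at hL ⊢
      exact Finset.map_subset_map.2 hL
    · intro L hL
      rw [Finset.mem_powerset] at hL ⊢
      intro i hi
      rw [Finset.mem_map] at hi
      obtain ⟨j, hj, rfl⟩ := hi
      obtain ⟨l, hl, h⟩ := Finset.mem_map.1 (hL hj)
      rw [← h]
      simpa using hl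
    · intro L _
      ext i
      simp
    · intro L _
      ext i
      simp
    · intro L _
      rw [hf' σ hσ L, ← hg' σ hσ (K \ L)]
      congr 2
      ext i
      simp only [Finset.mem_map, Finset.mem_sdiff]
      constructor
      · rintro ⟨j, ⟨h1, h2⟩, rfl⟩
        refine ⟨⟨j, h1, rfl⟩, ?_⟩
        rintro ⟨l, hl, h⟩
        exact h2 (by rwa [← σ.toEmbedding.injective h])
      · rintro ⟨⟨j, h1, rfl⟩, h2⟩
        exact ⟨j, ⟨h1, fun h => h2 ⟨j, h, rfl⟩⟩, rfl⟩

lemma add_mem' {f g : Finset ℕ → ℂ} (hf : f ∈ orbitAlgebra) (hg : g ∈ orbitAlgebra) :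
    f + g ∈ orbitAlgebra := by
  obtain ⟨⟨N, hN⟩, hf'⟩ := hf
  obtain ⟨⟨M, hM⟩, hg'⟩ := hg
  refine ⟨⟨N + M, fun K hK => ?_⟩, fun σ hσ K => ?_⟩
  · rw [Pi.add_apply, hN K (by omega), hM K (by omega), add_zero]
  · rw [Pi.add_apply, Pi.add_apply, hf' σ hσ, hg' σ hσ]

lemma smul_one_mem (c : ℂ) : (c • ev 1) ∈ orbitAlgebra := by
  refine ⟨⟨1, fun K hK => ?_⟩, fun σ _ K => ?_⟩
  · rw [Pi.smul_apply, ev_one]
    have : K ≠ ∅ := by
      rintro rfl
      simp at hK
    simp [this]
  · rw [Pi.smul_apply, Pi.smul_apply, ev_one]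
    simp [Finset.map_eq_empty]

lemma gperm_iff (σ : Equiv.Perm ℕ) : Gperm σ ↔ IsSwitchingAut σ := Iff.rfl

lemma equivMap_ind (σ : Equiv.Perm ℕ) (s : Finset ℕ) :
    Finsupp.equivMapDomain σ (ind s) = ind (s.map σ.toEmbedding) := by
  ext i
  rw [Finsupp.equivMapDomain_apply, ind_apply, ind_apply]
  have : σ.symm i ∈ s ↔ i ∈ s.map σ.toEmbedding := by
    rw [Finset.mem_map]
    constructor
    · intro h
      exact ⟨_, h, by simp⟩
    · rintro ⟨j, hj, rfl⟩
      simpa using hj
  simp only [this]

/-- the generators -/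
noncomputable def X' (i : Idx) : MvPowerSeries ℕ ℂ := Fg (rep i)

/-- the isomorphism -/
noncomputable def Phi (p : MvPolynomial Idx ℂ) : Finset ℕ → ℂ := ev (MvPolynomial.aeval X' p)

lemma ev_X'_mem (i : Idx) : ev (X' i) ∈ orbitAlgebra := by
  refine ⟨⟨(rep i).1 + 1, fun K hK => ?_⟩, fun σ hσ K => ?_⟩
  · by_contra h
    have := fE_degree _ _ h
    rw [Fintype.card_fin, ind_sum] at this
    omega
  · have := fE_inv (rep_good i).2 ((gperm_iff σ).2 hσ) (ind K)
    rw [equivMap_ind] at this
    exact this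

lemma Phi_mem (p : MvPolynomial Idx ℂ) : Phi p ∈ orbitAlgebra := by
  induction p using MvPolynomial.induction_on with
  | C c =>
    have : Phi (MvPolynomial.C c) = c • ev 1 := by
      unfold Phi
      rw [MvPolynomial.aeval_C, Algebra.algebraMap_eq_smul_one, ev_smul]
    rw [this]
    exact smul_one_mem c
  | add p q hp hq =>
    have : Phi (p + q) = Phi p + Phi q := by
      unfold Phi
      rw [map_add, ev_add]
    rw [this]
    exact add_mem' hp hq
  | mul_X p i hp =>
    have : Phi (p * MvPolynomial.X i) = conv (Phi p) (ev (X' i)) := by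
      unfold Phi
      rw [map_mul, MvPolynomial.aeval_X, ev_mul]
    rw [this]
    exact conv_mem hp (ev_X'_mem i)

/-- the graph of a monomial -/
noncomputable def gr (m : Idx →₀ ℕ) : FG := listG ((Finsupp.toMultiset m).toList.map rep)

lemma lo_gr (m : Idx →₀ ℕ) : Lo (gr m) := by
  apply lo_list
  intro g hg
  obtain ⟨i, -, rfl⟩ := List.mem_map.mp hg
  exact lo_of_ev (rep_good i).2

lemma gr_inj {m m' : Idx →₀ ℕ} (h : IsoG (gr m) (gr m')) : m = m' := by
  classical
  ext i
  have h1 := MM_iso (C := rep i) h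
  unfold gr at h1
  rw [MM_count, MM_count] at h1
  have h2 : MM (rep i) (rep i) ≠ 0 := embs_self _
  have h3 := Nat.eq_of_mul_eq_mul_right (Nat.pos_of_ne_zero h2) h1
  have h4 : ∀ k : Idx →₀ ℕ, List.count i (Finsupp.toMultiset k).toList = k i := by
    intro k
    rw [← Multiset.coe_count, Multiset.coe_toList, Finsupp.count_toMultiset]
  have h5 := h4 m
  have h6 := h4 m'
  rw [← h5, ← h6]
  convert h3

lemma Fg_gr (m : Idx →₀ ℕ) : Fg (gr m) = m.prod (fun i k => Fg (rep i) ^ k) := by
  unfold gr
  rw [Fg_list, List.map_map]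
  have h1 : (List.map (Fg ∘ rep) (Finsupp.toMultiset m).toList).prod =
      (Multiset.map (Fg ∘ rep) (Finsupp.toMultiset m)).prod := by
    conv_rhs => rw [← Multiset.coe_toList (Finsupp.toMultiset m)]
    rw [Multiset.map_coe, Multiset.prod_coe]
  rw [h1, Finsupp.toMultiset_map, Finsupp.prod_toMultiset, Finsupp.prod_mapDomain_index]
  · rfl
  · intro b; exact pow_zero b
  · intro b m1 m2; exact pow_add b m1 m2

lemma Lam_add {V : Type} [Fintype V] (E : Finset (Sym2 V)) {α : Type} (t : Finset α) (c : α → ℂ)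
    (u : α → MvPowerSeries ℕ ℂ) : Lam E (∑ a ∈ t, c a • u a) = ∑ a ∈ t, c a * Lam E (u a) := by
  unfold Lam
  simp_rw [map_sum, Finset.mul_sum]
  rw [Finset.sum_comm]
  refine Finset.sum_congr rfl fun a _ => Finset.sum_congr rfl fun J _ => ?_
  rw [map_smul, smul_eq_mul]
  ring

lemma Phi_inj {p : MvPolynomial Idx ℂ} (hp : Phi p = 0) : p = 0 := by
  by_contra hne
  obtain ⟨m0, hm0⟩ := MvPolynomial.support_nonempty.mpr hne
  have h1 : (∑ m ∈ p.support, MvPolynomial.coeff m p • Fg (gr m)) ∈ KK := by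
    have h0 : MvPolynomial.aeval X' p = ∑ m ∈ p.support, MvPolynomial.coeff m p • Fg (gr m) := by
      rw [MvPolynomial.aeval_def, MvPolynomial.eval₂_eq]
      refine Finset.sum_congr rfl fun m _ => ?_
      rw [Fg_gr, Algebra.smul_def]
      rfl
    rw [← h0]
    exact ev_eq_zero.1 hp
  have h2 := Lam_KK (gr m0).2 _ h1
  rw [Lam_add, Finset.sum_eq_single m0] at h2
  · have h3 : MvPolynomial.coeff m0 p ≠ 0 := MvPolynomial.mem_support_iff.mp hm0
    rcases mul_eq_zero.mp h2 with h2 | h2
    · exact h3 h2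
    · exact Lam_self_ne _ (lo_gr m0) h2
  · intro m _ hmm
    have h5 : Lam (gr m0).2 (Fg (gr m)) = 0 :=
      Lam_eq_zero _ (lo_gr m0) _ (lo_gr m) (fun θ hθ => hmm (gr_inj ⟨θ, hθ⟩))
    rw [h5, mul_zero]
  · intro h; exact absurd hm0 h

lemma Phi_surj {f : Finset ℕ → ℂ} (hf : f ∈ orbitAlgebra) : ∃ p, Phi p = f := by
  classical
  obtain ⟨⟨N, hN⟩, hinv⟩ := hf
  let F : MvPowerSeries ℕ ℂ := fun s => if Sf s then f s.support else 0
  have hF : ∀ s, MvPowerSeries.coeff s F = if Sf s then f s.support else 0 := fun s => rfl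
  have hevF : ev F = f := by
    funext K
    unfold ev
    rw [hF, if_pos (ind_sf K), ind_support]
  have hFinv : Inv F := by
    intro σ hσ s
    rw [hF, hF]
    have h1 : Sf (Finsupp.equivMapDomain σ s) ↔ Sf s := by
      constructor
      · intro h i
        have := h (σ i)
        rwa [Finsupp.equivMapDomain_apply, Equiv.symm_apply_apply] at this
      · intro h i
        rw [Finsupp.equivMapDomain_apply]
        exact h _
    by_cases hs : Sf s
    · rw [if_pos (h1.2 hs), if_pos hs]
      have h2 : (Finsupp.equivMapDomain σ s).support = s.support.map σ.toEmbedding := by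
        ext i
        rw [Finsupp.mem_support_iff, Finsupp.equivMapDomain_apply, Finset.mem_map]
        constructor
        · intro h
          exact ⟨σ.symm i, Finsupp.mem_support_iff.2 h, by simp⟩
        · rintro ⟨j, hj, rfl⟩
          simpa using Finsupp.mem_support_iff.1 hj
      rw [h2]
      exact hinv σ ((gperm_iff σ).1 hσ) _
    · rw [if_neg (fun h => hs (h1.1 h)), if_neg hs]
  let A := Algebra.adjoin ℂ (Set.range X')
  have hgen : ∀ g : FG, Good g → (RingHom.id (MvPowerSeries ℕ ℂ)) (Fg g) ∈ A := by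
    intro g hg
    have h1 : IsoG (Quotient.out (⟦g⟧ : Quotient fgSetoid)) g := Quotient.mk_out g
    let i : Idx := ⟨⟦g⟧, good_iso (fgSetoid.symm h1) hg⟩
    have h2 : Fg (rep i) = Fg g := Fg_iso h1
    rw [RingHom.id_apply, ← h2]
    exact Algebra.subset_adjoin ⟨i, rfl⟩
  have hsum : ∑ n ∈ Finset.range N, part (Fin n) F ∈ A :=
    A.sum_mem fun n _ => part_mem A (RingHom.id _) (RingHom.id_comp _) hgen (Fin n) F
  have hf2 : ev (∑ n ∈ Finset.range N, part (Fin n) F) = ev F := by
    funext K
    unfold ev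
    rw [map_sum]
    by_cases hd : K.card < N
    · rw [Finset.sum_eq_single K.card]
      · exact coeff_part hFinv (ind K) (ind_sf K) (by rw [Fintype.card_fin, ind_sum])
      · intro n _ hn
        exact coeff_part_zero F (ind K) (by
          rw [Fintype.card_fin, ind_sum]
          exact fun h => hn h.symm)
      · intro h
        exact absurd (Finset.mem_range.mpr hd) h
    · rw [hF, if_pos (ind_sf K), ind_support, hN K (not_lt.mp hd)]
      refine Finset.sum_eq_zero fun n hn => ?_
      rw [Finset.mem_range] at hn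
      exact coeff_part_zero F (ind K) (by rw [Fintype.card_fin, ind_sum]; omega)
  have hA : A = (MvPolynomial.aeval X' : MvPolynomial Idx ℂ →ₐ[ℂ] _).range :=
    Algebra.adjoin_range_eq_range_aeval ℂ X'
  rw [hA] at hsum
  obtain ⟨p, hp⟩ := hsum
  refine ⟨p, ?_⟩
  unfold Phi
  have hp' : MvPolynomial.aeval X' p = ∑ n ∈ Finset.range N, part (Fin n) F := hp
  rw [hp', hf2, hevF]

/-- The orbit algebra over `ℂ` of the group of switching automorphisms of the random graph is a
polynomial ring: there are a polynomial ring `ℂ[xᵢ : i ∈ ι]` and a `ℂ`-algebra isomorphism `Φ` of it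
onto the orbit algebra (with the product `conv`, and with unit the function `1` on `∅` and `0`
elsewhere), under which every variable is homogeneous. -/
theorem result : ∃ (ι : Type) (Φ : MvPolynomial ι ℂ → (Finset ℕ → ℂ)),
    Function.Injective Φ ∧ Set.range Φ = orbitAlgebra ∧
    (∀ p q, Φ (p + q) = Φ p + Φ q) ∧ (∀ (c : ℂ) p, Φ (c • p) = c • Φ p) ∧
    (∀ p q, Φ (p * q) = conv (Φ p) (Φ q)) ∧ (Φ 1 = fun K => if K = ∅ then 1 else 0) ∧
    ∀ i, ∃ d : ℕ, ∀ K : Finset ℕ, Φ (MvPolynomial.X i) K ≠ 0 → K.card = d := by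
  have hadd : ∀ p q, Phi (p + q) = Phi p + Phi q := fun p q => by
    unfold Phi
    rw [map_add, ev_add]
  have hsmul : ∀ (c : ℂ) p, Phi (c • p) = c • Phi p := fun c p => by
    unfold Phi
    rw [map_smul, ev_smul]
  refine ⟨Idx, Phi, ?_, ?_, hadd, hsmul, ?_, ?_, ?_⟩
  · intro p q h
    have h1 : Phi (p - q) = 0 := by
      rw [sub_eq_add_neg, hadd, ← neg_one_smul ℂ q, hsmul, h, neg_one_smul, add_neg_cancel]
    exact sub_eq_zero.1 (Phi_inj h1)
  · ext f
    constructor
    · rintro ⟨p, rfl⟩
      exact Phi_mem p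
    · exact fun h => Phi_surj h
  · intro p q
    unfold Phi
    rw [map_mul, ev_mul]
  · unfold Phi
    rw [map_one, ev_one]
  · intro i
    refine ⟨(rep i).1, fun K hK => ?_⟩
    unfold Phi at hK
    rw [MvPolynomial.aeval_X] at hK
    have := fE_degree _ _ hK
    rw [Fintype.card_fin, ind_sum] at this
    exact this

end Pool.Agent.Results.MP_f0391a_al.SwitchingOrbitAlgebraPolynomial
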